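import Pool.Agent.V8H19.AP.Three

/-!
# Bohr sets with `O (log³ (1/α))` frequencies and radius `c / log (1/α)` in `2A - 2A`

Let `A ⊆ ℤ/N` have density `α ≤ 1/2` and `|A + A| ≤ K |A|`; put `ℓ = log (1/α)` and `m = min (ℓ, log (2K))`. The
theorem says that `2A - 2A` contains a Bohr set with at most `C (ℓ / log (2 + R) + m³)` frequencies and radius `1 / R`,
for every `R ≥ C m`. So, with `R = C ℓ`,

* for every `A` there is a Bohr set with `O (ℓ³)` frequencies and radius at least `c / ℓ` (`all_sets`);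
* the conclusion of Q1 holds for the sets of doubling up to `exp (c ℓ^{1/3})`, and for the sets that contain a piece
  of such doubling and of density at least `α^{O(1)}` (`moderate_doubling`).

The starting result `ModerateDoubling` has `(ℓ + log⁵ (2K)) / log (2 + ℓ)` in place of the bound for the number of
frequencies.

The proof has two new parts.

* The chain of almost periods (`V8H19.AP.Mom`, `CS`, `Chain`). The argument of Croot and Sisask is carried out for a
  probability law `h` in place of the uniform law on a set, with the increment of the entropy of `h` under smoothing in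
  place of the doubling. Starting with the uniform law on `A` the law is smoothed repeatedly by differences of the
  almost periods found in the previous steps; the sum of all the increments of the entropy is at most `O (log (2K))`,
  hence most of the increments are small, and an almost period for a small increment is cheap. The result is a set of
  almost periods with error `ε / M` and of relative size `exp (- O (log² (2K) M / ε²))`; the argument of Croot, Sisask
  and Sanders gives `exp (- O (log² (2K) M² / ε²))`.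
* A kernel estimate in the manner of Bernstein (`Kernel`, `Four`): the part of the Fourier series over the large
  spectrum is bounded by `8 δ` if the characters of the large spectrum are `δ`-close to `1`; no factor `K` is lost.

The rest (`Three`) follows the starting files `N142.CD`: the covering by translates of a proper coset progression of
dimension `O (log (2K))`, the local form of Chang's theorem, and the Bohr sets in proper coset progressions.
-/

set_option autoImplicit false

namespace Pool.Agent.V8H19.Old.CubicDimension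

open Pool.Agent.V8H19
open scoped Pointwise

/-- The Bohr set `B(Γ, ε) = {x ∈ ℤ/N : ‖γ x / N‖ ≤ ε for all γ ∈ Γ}`; the norm is the distance to the nearest
integer. -/
def bohr {N : ℕ} (Γ : Finset (ZMod N)) (ε : ℝ) : Set (ZMod N) :=
  {x | ∀ γ ∈ Γ, |((γ * x).val : ℝ) / (N : ℝ) - ((round (((γ * x).val : ℝ) / (N : ℝ)) : ℤ) : ℝ)| ≤ ε}

/-- The set `2A - 2A`. -/
def twoAMinusTwoA {N : ℕ} (A : Finset (ZMod N)) : Set (ZMod N) :=
  {x | ∃ a₁ ∈ A, ∃ a₂ ∈ A, ∃ a₃ ∈ A, ∃ a₄ ∈ A, x = a₁ + a₂ - a₃ - a₄}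

/-- `log (1/α)` for the density `α = |A| / N` -/
noncomputable def logDens {N : ℕ} (A : Finset (ZMod N)) : ℝ := Real.log ((N : ℝ) / (A.card : ℝ))

theorem logDens_ge {N : ℕ} (hN : 0 < N) (A : Finset (ZMod N)) (hA : A.Nonempty)
    (hα : (A.card : ℝ) / (N : ℝ) ≤ 1 / 2) : Real.log 2 ≤ logDens A := by
  have hAc : (0 : ℝ) < A.card := by exact_mod_cast hA.card_pos
  have hNpos : (0 : ℝ) < N := by exact_mod_cast hN
  apply Real.log_le_log (by norm_num)
  rw [div_le_iff₀ hNpos] at hα
  rw [le_div_iff₀ hAc]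
  linarith

/-- **Bohr sets with `O (log³ (1/α))` frequencies and radius `c / log (1/α)` in `2A - 2A`.** -/
theorem result : ∃ C : ℝ, 1 ≤ C ∧ ∀ (N : ℕ), 0 < N → ∀ (A : Finset (ZMod N)) (K R : ℝ), A.Nonempty →
    (A.card : ℝ) / (N : ℝ) ≤ 1 / 2 → 1 ≤ K → ((A + A).card : ℝ) ≤ K * A.card →
    C * min (logDens A) (Real.log (2 * K)) ≤ R →
    ∃ Γ : Finset (ZMod N),
      (Γ.card : ℝ) ≤ C * (logDens A / Real.log (2 + R) + min (logDens A) (Real.log (2 * K)) ^ 3) ∧
      bohr Γ (1 / R) ⊆ twoAMinusTwoA A := by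
  obtain ⟨C, hC, h⟩ := AP.core3
  refine ⟨8 * C + 4848, by linarith, ?_⟩
  intro N hN A K R hA hα hK hAA hR
  have : NeZero N := ⟨hN.ne'⟩
  have hlog2 := Real.log_two_gt_d9
  have hAc : (0 : ℝ) < A.card := by exact_mod_cast hA.card_pos
  have hNpos : (0 : ℝ) < N := by exact_mod_cast hN
  have hx2 := logDens_ge hN A hA hα
  obtain ⟨x, hx⟩ : ∃ x : ℝ, x = logDens A := ⟨_, rfl⟩
  obtain ⟨m, hm⟩ : ∃ m : ℝ, m = min (logDens A) (Real.log (2 * K)) := ⟨_, rfl⟩
  rw [← hm] at hR ⊢
  have hm2 : Real.log 2 ≤ m := by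
    rw [hm]
    exact le_min hx2 (Real.log_le_log (by norm_num) (by linarith))
  have hm0 : 0 < m := by linarith
  -- the effective doubling
  obtain ⟨K', hK'⟩ : ∃ K' : ℝ, K' = min K (N / A.card) := ⟨_, rfl⟩
  have hNA : 2 ≤ (N : ℝ) / A.card := by
    rw [div_le_iff₀ hNpos] at hα
    rw [le_div_iff₀ hAc]
    linarith
  have hK'1 : 1 ≤ K' := by rw [hK']; exact le_min hK (by linarith)
  have hAA' : ((A + A).card : ℝ) ≤ K' * A.card := by
    rw [hK', min_mul_of_nonneg _ _ hAc.le]
    refine le_min hAA ?_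
    rw [div_mul_cancel₀ _ hAc.ne']
    have := Finset.card_le_univ (A + A)
    rw [ZMod.card] at this
    exact_mod_cast this
  have hL' : Real.log (2 * K') ≤ 2 * m := by
    rw [hm, mul_min_of_nonneg _ _ (by norm_num)]
    refine le_min ?_ ?_
    · have h1 : Real.log (2 * K') ≤ Real.log (2 * (N / A.card)) := by
        apply Real.log_le_log (by linarith)
        have : K' ≤ N / A.card := by rw [hK']; exact min_le_right _ _
        linarith
      have h2 : Real.log (2 * (N / A.card)) = Real.log 2 + logDens A :=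
        Real.log_mul (by norm_num) (by positivity)
      linarith
    · have h1 : Real.log (2 * K') ≤ Real.log (2 * K) := by
        apply Real.log_le_log (by linarith)
        have : K' ≤ K := by rw [hK']; exact min_le_left _ _
        linarith
      have h2 : 0 ≤ Real.log (2 * K) := Real.log_nonneg (by linarith)
      linarith
  have hL'0 : 0 ≤ Real.log (2 * K') := Real.log_nonneg (by linarith)
  -- the radius
  have hR1 : 4848 * m ≤ R := by
    have : 0 ≤ 8 * C * m := by positivity
    linarith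
  have hR2 : 3000 ≤ R := by linarith
  obtain ⟨R', hR'⟩ : ∃ R' : ℕ, R' = ⌊R / 8⌋₊ := ⟨_, rfl⟩
  have hR'1 : (R' : ℝ) ≤ R / 8 := by rw [hR']; exact Nat.floor_le (by linarith)
  have hR'2 : R / 8 < R' + 1 := by rw [hR']; exact Nat.lt_floor_add_one _
  have hR'16 : R / 16 ≤ R' := by linarith
  have hR'0 : (0 : ℝ) < R' := by linarith
  obtain ⟨Γ, h1, h2⟩ := h N A K' R' hA hK'1 hAA' (by linarith)
  refine ⟨Γ, h1.trans ?_, fun y hy => h2 y fun g hg => (hy g hg).trans ?_⟩
  · have hlR : 0 < Real.log (2 + R) := Real.log_pos (by linarith)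
    have hlR' : Real.log (2 + R) ≤ 2 * Real.log R' := by
      have h3 : 2 + R ≤ (R' : ℝ) ^ 2 := by
        have h4 : (R / 16) ^ 2 ≤ (R' : ℝ) ^ 2 := pow_le_pow_left₀ (by linarith) hR'16 2
        nlinarith
      have h4 := Real.log_le_log (by linarith) h3
      rw [Real.log_pow] at h4
      push_cast at h4
      exact h4
    have hlR'0 : 0 < Real.log R' := by linarith
    have hx0 : 0 < x := by rw [hx]; linarith
    have e1 : x / Real.log R' ≤ 2 * (x / Real.log (2 + R)) := by
      rw [← mul_div_assoc, div_le_div_iff₀ hlR'0 hlR]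
      calc x * Real.log (2 + R) ≤ x * (2 * Real.log R') := by gcongr
        _ = 2 * x * Real.log R' := by ring
    have e2 : Real.log (2 * K') ^ 3 ≤ 8 * m ^ 3 := by
      calc Real.log (2 * K') ^ 3 ≤ (2 * m) ^ 3 := pow_le_pow_left₀ hL'0 hL' 3
        _ = 8 * m ^ 3 := by ring
    change C * (logDens A / Real.log R' + Real.log (2 * K') ^ 3) ≤ _
    rw [← hx]
    have e3 : 0 ≤ x / Real.log (2 + R) := by positivity
    have e4 : 0 ≤ m ^ 3 := by positivity
    calc C * (x / Real.log R' + Real.log (2 * K') ^ 3) ≤ C * (2 * (x / Real.log (2 + R)) + 8 * m ^ 3) := by gcongr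
      _ ≤ (8 * C + 4848) * (x / Real.log (2 + R) + m ^ 3) := by nlinarith [mul_nonneg (by linarith : (0 : ℝ) ≤ C) e3]
  · apply one_div_le_one_div_of_le (by positivity)
    linarith

/-- Corollary: all sets. -/
theorem all_sets : ∃ C : ℝ, 1 ≤ C ∧ ∀ (N : ℕ), 0 < N → ∀ (A : Finset (ZMod N)), A.Nonempty →
    (A.card : ℝ) / (N : ℝ) ≤ 1 / 2 →
    ∃ (Γ : Finset (ZMod N)) (ε : ℝ), 0 < ε ∧ (Γ.card : ℝ) ≤ C * logDens A ^ 3 ∧
      1 / C / logDens A ≤ ε ∧ bohr Γ ε ⊆ twoAMinusTwoA A := by
  obtain ⟨C, hC, h⟩ := result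
  have hlog2 := Real.log_two_gt_d9
  refine ⟨9 * C, by linarith, ?_⟩
  intro N hN A hA hα
  have : NeZero N := ⟨hN.ne'⟩
  have hAc : (0 : ℝ) < A.card := by exact_mod_cast hA.card_pos
  have hA1 : (1 : ℝ) ≤ A.card := by exact_mod_cast hA.card_pos
  have hNpos : (0 : ℝ) < N := by exact_mod_cast hN
  have hN1 : (1 : ℝ) ≤ N := by exact_mod_cast hN
  have hx2 := logDens_ge hN A hA hα
  obtain ⟨x, hx⟩ : ∃ x : ℝ, x = logDens A := ⟨_, rfl⟩
  rw [← hx] at hx2
  have hx0 : 0 < x := by linarith
  have hmin : min (logDens A) (Real.log (2 * N)) ≤ x := by rw [hx]; exact min_le_left _ _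
  have hmin0 : 0 ≤ min (logDens A) (Real.log (2 * N)) :=
    le_min (by rw [← hx]; exact hx0.le) (Real.log_nonneg (by linarith))
  obtain ⟨Γ, h1, h2⟩ := h N hN A N (C * x) hA hα hN1 (by
    have := Finset.card_le_univ (A + A)
    rw [ZMod.card] at this
    have : ((A + A).card : ℝ) ≤ N := by exact_mod_cast this
    nlinarith) (by gcongr)
  rw [← hx] at h1 ⊢
  rw [← hx] at hmin hmin0
  refine ⟨Γ, 1 / (C * x), by positivity, h1.trans ?_, ?_, h2⟩
  · have h3 : 1 / 2 ≤ Real.log (2 + C * x) := by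
      have h4 : Real.log 2 ≤ Real.log (2 + C * x) := Real.log_le_log (by norm_num) (by nlinarith)
      linarith
    have h4 : x / Real.log (2 + C * x) ≤ 8 * x ^ 3 := by
      rw [div_le_iff₀ (by linarith)]
      have h5 : 1 ≤ 4 * x ^ 2 := by nlinarith
      have h6 : 0 ≤ 8 * x ^ 3 := by positivity
      calc x = x * 1 := (mul_one x).symm
        _ ≤ x * (4 * x ^ 2) := by gcongr
        _ = 8 * x ^ 3 * (1 / 2) := by ring
        _ ≤ 8 * x ^ 3 * Real.log (2 + C * x) := by gcongr
    calc C * (x / Real.log (2 + C * x) + min x (Real.log (2 * N)) ^ 3) ≤ C * (8 * x ^ 3 + x ^ 3) := by gcongr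
      _ = 9 * C * x ^ 3 := by ring
  · rw [div_div]
    apply one_div_le_one_div_of_le (by positivity)
    nlinarith [mul_pos (by linarith : (0 : ℝ) < C) hx0]

/-- Corollary: the conclusion of Q1 for all sets `A` with a piece `B` (for example `B = A`) of density at least
`α ^ D` and of doubling `K` with `log³ (2K) ≤ D log (1/α)`. -/
theorem moderate_doubling (D : ℝ) (hD : 1 ≤ D) : ∃ C : ℝ, 1 ≤ C ∧ ∀ (N : ℕ), 0 < N →
    ∀ (A B : Finset (ZMod N)) (K : ℝ), A.Nonempty →
      (A.card : ℝ) / (N : ℝ) ≤ 1 / 2 → B ⊆ A → B.Nonempty → logDens B ≤ D * logDens A → 1 ≤ K →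
      ((B + B).card : ℝ) ≤ K * B.card → Real.log (2 * K) ^ 3 ≤ D * logDens A →
      ∃ (Γ : Finset (ZMod N)) (ε : ℝ), 0 < ε ∧ (Γ.card : ℝ) ≤ C * logDens A ∧
        1 / C / logDens A ≤ ε ∧ bohr Γ ε ⊆ twoAMinusTwoA A := by
  obtain ⟨C, hC, h⟩ := result
  have hlog2 := Real.log_two_gt_d9
  refine ⟨4 * D * C, by nlinarith, ?_⟩
  intro N hN A B K hA hα hBA hB hd hK hBB hKx
  have hAc : (0 : ℝ) < A.card := by exact_mod_cast hA.card_pos
  have hBc : (0 : ℝ) < B.card := by exact_mod_cast hB.card_pos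
  have hBAc : (B.card : ℝ) ≤ A.card := by exact_mod_cast Finset.card_le_card hBA
  have hNpos : (0 : ℝ) < N := by exact_mod_cast hN
  have hx2 := logDens_ge hN A hA hα
  have hαB : (B.card : ℝ) / N ≤ 1 / 2 := (div_le_div_of_nonneg_right hBAc hNpos.le).trans hα
  have hy2 := logDens_ge hN B hB hαB
  obtain ⟨x, hx⟩ : ∃ x : ℝ, x = logDens A := ⟨_, rfl⟩
  obtain ⟨x', hx'⟩ : ∃ x' : ℝ, x' = logDens B := ⟨_, rfl⟩
  have hmin : min (logDens B) (Real.log (2 * K)) ≤ x' := by rw [hx']; exact min_le_left _ _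
  have hmin2 : min (logDens B) (Real.log (2 * K)) ≤ Real.log (2 * K) := min_le_right _ _
  have hmin0 : 0 ≤ min (logDens B) (Real.log (2 * K)) := le_min (by linarith) (Real.log_nonneg (by linarith))
  obtain ⟨Γ, h1, h2⟩ := h N hN B K (C * x') hB hαB hK hBB (by gcongr)
  rw [← hx] at hx2 hd hKx ⊢
  rw [← hx'] at h1 hd hy2 hmin hmin2 hmin0
  have hx0 : 0 < x := by linarith
  have hx'0 : 0 < x' := by linarith
  refine ⟨Γ, 1 / (C * x'), by positivity, h1.trans ?_, ?_, fun y hy => ?_⟩
  · have h8 : 1 / 2 ≤ Real.log (2 + C * x') := by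
      have h9 : Real.log 2 ≤ Real.log (2 + C * x') := Real.log_le_log (by norm_num) (by nlinarith)
      linarith
    have h9 : x' / Real.log (2 + C * x') ≤ 2 * (D * x) := by
      rw [div_le_iff₀ (by linarith)]
      have : 0 ≤ D * x := by positivity
      nlinarith
    have hDx : 0 ≤ D * x := by positivity
    have h10 : min x' (Real.log (2 * K)) ^ 3 ≤ D * x := (pow_le_pow_left₀ hmin0 hmin2 3).trans hKx
    calc C * (x' / Real.log (2 + C * x') + min x' (Real.log (2 * K)) ^ 3) ≤ C * (2 * (D * x) + D * x) := by gcongr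
      _ ≤ 4 * D * C * x := by nlinarith [mul_nonneg (by linarith : (0 : ℝ) ≤ C) hDx]
  · rw [div_div]
    apply one_div_le_one_div_of_le (by positivity)
    calc C * x' ≤ C * (D * x) := by gcongr
      _ ≤ 4 * D * C * x := by
        nlinarith [mul_nonneg (by linarith : (0 : ℝ) ≤ C) (mul_nonneg (by linarith : (0 : ℝ) ≤ D) hx0.le)]
  · obtain ⟨a₁, k1, a₂, k2, a₃, k3, a₄, k4, k5⟩ := h2 hy
    exact ⟨a₁, hBA k1, a₂, hBA k2, a₃, hBA k3, a₄, hBA k4, k5⟩

end Pool.Agent.V8H19.Old.CubicDimension
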